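import Pool.Agent.H39.VQ.Targets

/-!
Modules N3 and N5.
-/

set_option autoImplicit false

namespace Pool.Agent.H46.VQ

open Pool.Agent.H39.VQ

lemma exact_pow (p : ℕ) (d : ℤ) : ∀ j : ℕ, ¬ (p : ℤ) ^ j ∣ d →
    ∃ l : ℕ, l < j ∧ ∃ v : ℤ, d = (p : ℤ) ^ l * v ∧ ¬ (p : ℤ) ∣ v := by
  intro j
  induction j with
  | zero => intro h; exact absurd (by simp) h
  | succ j ih =>
    intro h
    by_cases hj : (p : ℤ) ^ j ∣ d
    · obtain ⟨v, hv⟩ := hj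
      refine ⟨j, Nat.lt_succ_self j, v, hv, ?_⟩
      rintro ⟨w, hw⟩
      apply h
      refine ⟨w, ?_⟩
      rw [hv, hw]
      ring
    · obtain ⟨l, hl, v, hv⟩ := ih hj
      exact ⟨l, Nat.lt_succ_of_lt hl, v, hv⟩

/-- cancellation of a factor of exact power `l` -/
lemma cancel_pow {p : ℕ} (hp : p.Prime) {l n : ℕ} {v a : ℤ} (hv : ¬ (p : ℤ) ∣ v) (hl : l ≤ n)
    (h : (p : ℤ) ^ n ∣ (p : ℤ) ^ l * v * a) : (p : ℤ) ^ (n - l) ∣ a := by
  have hp' : Prime (p : ℤ) := Nat.prime_iff_prime_int.mp hp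
  have h1 : (p : ℤ) ^ l * (p : ℤ) ^ (n - l) ∣ (p : ℤ) ^ l * (v * a) := by
    rw [← pow_add, Nat.add_sub_cancel' hl, ← mul_assoc]
    exact h
  have h2 : (p : ℤ) ^ (n - l) ∣ v * a :=
    (mul_dvd_mul_iff_left (pow_ne_zero l hp'.ne_zero)).mp h1
  have hc : IsCoprime ((p : ℤ) ^ (n - l)) v := by
    apply IsCoprime.pow_left
    exact (Prime.coprime_iff_not_dvd hp').mpr hv
  exact hc.dvd_of_dvd_mul_left h2

/-- `B_a + B_b` -/
lemma pair_sum {p : ℕ} (hp : p.Prime) {j l : ℕ} {s t x y z v : ℤ} (hl : l ≤ 2 * j)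
    (hs : (p : ℤ) ^ (2 * j) ∣ z - 2 * s * y + s ^ 2 * x)
    (ht : (p : ℤ) ^ (2 * j) ∣ z - 2 * t * y + t ^ 2 * x)
    (hv : ¬ (p : ℤ) ∣ v) (hd : s - t = (p : ℤ) ^ l * v) :
    (p : ℤ) ^ (2 * j - l) ∣ (y - s * x) + (y - t * x) := by
  apply cancel_pow hp hv hl
  rw [← hd]
  have h := dvd_sub ht hs
  have e : (z - 2 * t * y + t ^ 2 * x) - (z - 2 * s * y + s ^ 2 * x) =
      (s - t) * ((y - s * x) + (y - t * x)) := by ring
  rw [e] at h
  exact h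

lemma odd_cancel {p : ℕ} (hp : p.Prime) (h2 : p ≠ 2) {n : ℕ} {a : ℤ}
    (h : (p : ℤ) ^ n ∣ 2 * a) : (p : ℤ) ^ n ∣ a := by
  have hp' : Prime (p : ℤ) := Nat.prime_iff_prime_int.mp hp
  have hv : ¬ (p : ℤ) ∣ 2 := by
    intro hd
    have : p ∣ 2 := by exact_mod_cast hd
    exact h2 ((Nat.prime_dvd_prime_iff_eq hp Nat.prime_two).mp this)
  have := cancel_pow (l := 0) (n := n) (v := 2) (a := a) hp hv (Nat.zero_le n) (by simpa using h)
  simpa using this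

/-- exact power in `x` -/
lemma exact_x {p : ℕ} (hp : p.Prime) (h2 : p ≠ 2) {j l : ℕ} {s t x y z v : ℤ} (hl : l < j)
    (hs : Dp p j s x y z) (ht : Dp p j t x y z)
    (hv : ¬ (p : ℤ) ∣ v) (hd : s - t = (p : ℤ) ^ l * v) :
    (p : ℤ) ^ (j - l) ∣ x ∧ ¬ (p : ℤ) ^ (j - l + 1) ∣ x ∧
      (p : ℤ) ^ (2 * j - l) ∣ (s - t) * x + 2 * (y - s * x) := by
  obtain ⟨-, hs1, hs2, hs3⟩ := hs
  obtain ⟨-, ht1, ht2, ht3⟩ := ht
  have hsum := pair_sum hp (by omega) hs3 ht3 hv hd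
  have e : (y - s * x) + (y - t * x) = (s - t) * x + 2 * (y - s * x) := by ring
  rw [e] at hsum
  refine ⟨?_, ?_, hsum⟩
  · apply cancel_pow hp hv hl.le
    rw [← hd]
    have h3 : (p : ℤ) ^ j ∣ (s - t) * x + 2 * (y - s * x) :=
      (pow_dvd_pow _ (by omega)).trans hsum
    exact (dvd_add_left (hs1.mul_left 2)).mp h3
  · intro hx
    apply hs2
    apply odd_cancel hp h2
    have h3 : (p : ℤ) ^ (j + 1) ∣ (s - t) * x + 2 * (y - s * x) :=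
      (pow_dvd_pow _ (by omega)).trans hsum
    have h4 : (p : ℤ) ^ (j + 1) ∣ (s - t) * x := by
      rw [hd]
      have e2 : (p : ℤ) ^ (j + 1) = (p : ℤ) ^ l * (p : ℤ) ^ (j - l + 1) := by
        rw [← pow_add]; congr 1; omega
      rw [e2, mul_assoc]
      exact mul_dvd_mul_left _ (hx.mul_left v)
    exact (dvd_add_right h4).mp h3

theorem n3 : V_N3 := by
  intro p j t₁ t₂ t₃ x y z hp h2 h1 h2' h3
  by_contra hcon
  push Not at hcon
  obtain ⟨h12, h13, h23⟩ := hcon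
  obtain ⟨l, hl, v, hv, hvp⟩ := exact_pow p _ j h12
  obtain ⟨l', hl', v', hv', hvp'⟩ := exact_pow p _ j h13
  obtain ⟨a1, a2, a3⟩ := exact_x hp h2 hl h1 h2' hvp hv
  obtain ⟨b1, b2, b3⟩ := exact_x hp h2 hl' h1 h3 hvp' hv'
  have hll : l = l' := by
    by_contra hne
    rcases lt_or_gt_of_ne hne with h | h
    · exact b2 ((pow_dvd_pow _ (by omega)).trans a1)
    · exact a2 ((pow_dvd_pow _ (by omega)).trans b1)
  subst hll
  obtain ⟨u, hu⟩ := a1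
  have hup : ¬ (p : ℤ) ∣ u := by
    rintro ⟨w, hw⟩
    apply a2
    refine ⟨w, ?_⟩
    rw [hu, hw]; ring
  apply h23
  have h5 := dvd_sub b3 a3
  have e : (t₁ - t₃) * x + 2 * (y - t₁ * x) - ((t₁ - t₂) * x + 2 * (y - t₁ * x)) =
      (p : ℤ) ^ (j - l) * u * (t₂ - t₃) := by rw [← hu]; ring
  rw [e] at h5
  have h6 := cancel_pow hp hup (by omega) h5
  have e3 : 2 * j - l - (j - l) = j := by omega
  rwa [e3] at h6

lemma three {p : ℕ} (hp : p.Prime) (h2 : p ≠ 2) {k l l' l'' : ℕ} {s t r x y z v v' v'' : ℤ}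
    (hl : l < k) (hl' : l' ≤ l) (hl'' : l'' ≤ l)
    (hs : Pl p k 0 s x y z) (ht : Pl p k 0 t x y z) (hr : Pl p k 0 r x y z)
    (hv : ¬ (p : ℤ) ∣ v) (hd : s - t = (p : ℤ) ^ l * v)
    (hv' : ¬ (p : ℤ) ∣ v') (hd' : s - r = (p : ℤ) ^ l' * v')
    (hv'' : ¬ (p : ℤ) ∣ v'') (hd'' : t - r = (p : ℤ) ^ l'' * v'') :
    (p : ℤ) ^ l ∣ s - t ∧ Us p k l s x y z := by
  obtain ⟨-, hs1, hs2⟩ := hs
  obtain ⟨-, ht1, ht2⟩ := ht
  obtain ⟨-, hr1, hr2⟩ := hr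
  have q1 := pair_sum hp (by omega) hs2 ht2 hv hd
  have q2 := pair_sum hp (by omega) hs2 hr2 hv' hd'
  have q3 := pair_sum hp (by omega) ht2 hr2 hv'' hd''
  have q4 : (p : ℤ) ^ (2 * k - l) ∣ (y - s * x) - (y - t * x) := by
    have h := dvd_sub ((pow_dvd_pow (p : ℤ) (by omega : 2 * k - l ≤ 2 * k - l')).trans q2)
      ((pow_dvd_pow (p : ℤ) (by omega : 2 * k - l ≤ 2 * k - l'')).trans q3)
    have e : (y - s * x + (y - r * x)) - (y - t * x + (y - r * x)) =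
      (y - s * x) - (y - t * x) := by ring
    rwa [e] at h
  refine ⟨⟨v, hd⟩, ?_, ?_, hs2⟩
  · have e : ex k l = 2 * k - l - l := by unfold ex; omega
    rw [e]
    apply cancel_pow hp hv (by omega)
    rw [← hd]
    have e2 : (s - t) * x = -((y - s * x) - (y - t * x)) := by ring
    rw [e2]
    exact q4.neg_right
  · apply odd_cancel hp h2
    have h := dvd_add q1 q4
    have e : (y - s * x + (y - t * x)) + ((y - s * x) - (y - t * x)) = 2 * (y - s * x) := by ring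
    rwa [e] at h

theorem n5 : V_N5 := by
  intro p k s₁ s₂ s₃ x y z hp h2 h1 h2' h3 h12 h13 h23
  obtain ⟨a, ha, v, hv, hvp⟩ := exact_pow p _ k h12
  obtain ⟨b, hb, w, hw, hwp⟩ := exact_pow p _ k h13
  obtain ⟨c, hc, u, hu, hup⟩ := exact_pow p _ k h23
  have neg_ndvd : ∀ e : ℤ, ¬ (p : ℤ) ∣ e → ¬ (p : ℤ) ∣ -e := by
    intro e he hh
    exact he ((dvd_neg).mp hh)
  have negeq : ∀ (s t e : ℤ) (m : ℕ), s - t = (p : ℤ) ^ m * e → t - s = (p : ℤ) ^ m * -e := by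
    intro s t e m h
    have : t - s = -(s - t) := by ring
    rw [this, h]; ring
  by_cases hab : b ≤ a
  · by_cases hac : c ≤ a
    · exact ⟨a, ha, Or.inl (three hp h2 ha hab hac h1 h2' h3 hvp hv hwp hw hup hu)⟩
    · refine ⟨c, hc, Or.inr (Or.inr ?_)⟩
      exact three hp h2 hc (by omega) (by omega) h2' h3 h1 hup hu
        (neg_ndvd _ hvp) (negeq _ _ _ _ hv) (neg_ndvd _ hwp) (negeq _ _ _ _ hw)
  · by_cases hbc : c ≤ b
    · refine ⟨b, hb, Or.inr (Or.inl ?_)⟩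
      exact three hp h2 hb (by omega) hbc h1 h3 h2' hwp hw hvp hv
        (neg_ndvd _ hup) (negeq _ _ _ _ hu)
    · refine ⟨c, hc, Or.inr (Or.inr ?_)⟩
      exact three hp h2 hc (by omega) (by omega) h2' h3 h1 hup hu
        (neg_ndvd _ hvp) (negeq _ _ _ _ hv) (neg_ndvd _ hwp) (negeq _ _ _ _ hw)

end Pool.Agent.H46.VQ
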